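import Mathlib

/-! Leaf [NM4] (helper46): the choice of the parameters with fan-in `r`, without the definitions. -/

set_option autoImplicit false
set_option maxHeartbeats 1000000

namespace Pool.Agent.Helper46K9.MA

theorem num4A (n K w N d k e r s : ℕ) (hs : s = e + 3 * k + d + 2) (hr : 1 ≤ r) (hn : n ≤ 2 ^ k)
    (hN : N ≤ 2 ^ k) (hw : 1 ≤ w) (hK : (24 * (r * s)) ^ (d + 1) ≤ K) (hKn : K ≤ n) :
    ∃ D0 m' τ : ℕ, 1 ≤ D0 ∧ D0 * m' + τ * (w * s) ≤ n * D0 ∧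
      2 ^ e * (1 / 2 ^ m' + n * (2 ^ D0 * (1 - (1 / (24 * (r * s) : ℝ)) ^ d / 2) ^ K) +
        N * (d * 2 ^ k * (12 * (r * s) * (1 / (24 * (r * s) : ℝ))) ^ (s + 1))) ≤
        (1 / 2 ^ k : ℝ) / 2 ∧
      (n * K : ℝ) ≤ (24 * (r * s) : ℝ) ^ (d + 1) * w * (τ + 1) := by
  have hs2 : 2 ≤ s := by omega
  have hu : s ≤ r * s := Nat.le_mul_of_pos_left s hr
  have hr1 : (1 : ℝ) ≤ r := by exact_mod_cast hr
  obtain ⟨Q, hQ⟩ : ∃ Q : ℕ, Q = (24 * (r * s)) ^ d := ⟨_, rfl⟩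
  have hQ1 : 1 ≤ Q := by
    rw [hQ]
    exact Nat.one_le_iff_ne_zero.2 (by positivity)
  have hKQ : 24 * s * Q ≤ K := by
    rw [hQ]
    calc 24 * s * (24 * (r * s)) ^ d ≤ 24 * (r * s) * (24 * (r * s)) ^ d := by gcongr
      _ = (24 * (r * s)) ^ (d + 1) := by rw [pow_succ]; ring
      _ ≤ K := hK
  obtain ⟨D0, hD0⟩ : ∃ D0 : ℕ, D0 = K / (4 * Q) := ⟨_, rfl⟩
  have hQ4 : 0 < 4 * Q := by omega
  have hD1 : D0 * (4 * Q) ≤ K := by
    rw [hD0]
    exact Nat.div_mul_le_self _ _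
  have hD2 : K < (D0 + 1) * (4 * Q) := by
    rw [hD0, add_mul, one_mul]
    have := Nat.div_add_mod K (4 * Q)
    have h2 := Nat.mod_lt K hQ4
    have h3 : 4 * Q * (K / (4 * Q)) = K / (4 * Q) * (4 * Q) := mul_comm _ _
    omega
  have hD3 : 6 * s ≤ D0 := by
    rw [hD0, Nat.le_div_iff_mul_le hQ4]
    calc 6 * s * (4 * Q) = 24 * s * Q := by ring
      _ ≤ K := hKQ
  obtain ⟨τ, hτ⟩ : ∃ τ : ℕ, τ = D0 * (n - n / 2) / (w * s) := ⟨_, rfl⟩
  have hws : 0 < w * s := by positivity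
  have hτ1 : τ * (w * s) ≤ D0 * (n - n / 2) := by
    rw [hτ]
    exact Nat.div_mul_le_self _ _
  have hτ2 : D0 * (n - n / 2) < (τ + 1) * (w * s) := by
    rw [hτ, add_mul, one_mul]
    have := Nat.div_add_mod (D0 * (n - n / 2)) (w * s)
    have h2 := Nat.mod_lt (D0 * (n - n / 2)) hws
    have h3 : w * s * (D0 * (n - n / 2) / (w * s)) = D0 * (n - n / 2) / (w * s) * (w * s) := mul_comm _ _
    omega
  have hsr : (2 : ℝ) ≤ s := by exact_mod_cast hs2
  have hQr : (1 : ℝ) ≤ Q := by exact_mod_cast hQ1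
  have hQe : (1 / (24 * (r * s) : ℝ)) ^ d = 1 / (Q : ℝ) := by
    rw [hQ]
    push_cast
    rw [div_pow, one_pow]
  refine ⟨D0, n / 2, τ, by omega, ?_, ?_, ?_⟩
  · calc D0 * (n / 2) + τ * (w * s) ≤ D0 * (n / 2) + D0 * (n - n / 2) := by omega
      _ = D0 * (n / 2 + (n - n / 2)) := by ring
      _ = n * D0 := by
          rw [show n / 2 + (n - n / 2) = n by omega]
          ring
  · -- the bound
    have hb1 : (2 : ℝ) ^ e * (1 / 2 ^ (n / 2)) ≤ 1 / 2 ^ (k + 3) := by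
      have h1 : e + (k + 3) ≤ n / 2 := by
        have h2 : 24 * s * 1 ≤ 24 * s * Q := Nat.mul_le_mul_left _ hQ1
        omega
      rw [mul_one_div, div_le_div_iff₀ (by positivity) (by positivity), one_mul, ← pow_add]
      exact pow_le_pow_right₀ (by norm_num) h1
    have hb2 : (2 : ℝ) ^ e * (n * (2 ^ D0 * (1 - (1 / (24 * (r * s) : ℝ)) ^ d / 2) ^ K)) ≤
        1 / 2 ^ (k + 3) := by
      rw [hQe]
      have hx0 : (0 : ℝ) ≤ 1 - 1 / (Q : ℝ) / 2 := by
        have : 1 / (Q : ℝ) ≤ 1 := by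
          rw [div_le_one (by linarith)]
          exact hQr
        linarith
      have h1 : (1 - 1 / (Q : ℝ) / 2) ^ K ≤ Real.exp (-1) ^ (D0 + 6 * s) := by
        calc (1 - 1 / (Q : ℝ) / 2) ^ K ≤ Real.exp (-(1 / (Q : ℝ) / 2)) ^ K :=
              pow_le_pow_left₀ hx0 (Real.one_sub_le_exp_neg _) K
          _ = Real.exp (K * -(1 / (Q : ℝ) / 2)) := by rw [← Real.exp_nat_mul]
          _ ≤ Real.exp ((D0 + 6 * s : ℕ) * (-1)) := by
              apply Real.exp_le_exp.2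
              have h2 : ((D0 * (4 * Q) : ℕ) : ℝ) ≤ K := by exact_mod_cast hD1
              have h3 : ((24 * s * Q : ℕ) : ℝ) ≤ K := by exact_mod_cast hKQ
              push_cast at h2 h3
              have h4 : (D0 : ℝ) + 6 * s ≤ K * (1 / (Q : ℝ) / 2) := by
                rw [div_div, mul_one_div, le_div_iff₀ (by linarith)]
                nlinarith
              push_cast
              linarith
          _ = Real.exp (-1) ^ (D0 + 6 * s) := by rw [← Real.exp_nat_mul]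
      have h5 : Real.exp (-1) ≤ 1 / 2 := by
        have := Real.exp_neg_one_lt_d9
        linarith
      have h6 : (1 - 1 / (Q : ℝ) / 2) ^ K ≤ (1 / 2) ^ (D0 + 6 * s) :=
        h1.trans (pow_le_pow_left₀ (Real.exp_pos _).le h5 _)
      have h7 : (2 : ℝ) ^ D0 * (1 - 1 / (Q : ℝ) / 2) ^ K ≤ 1 / 2 ^ (6 * s) := by
        calc (2 : ℝ) ^ D0 * (1 - 1 / (Q : ℝ) / 2) ^ K ≤ 2 ^ D0 * (1 / 2) ^ (D0 + 6 * s) :=
              mul_le_mul_of_nonneg_left h6 (by positivity)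
          _ = 1 / 2 ^ (6 * s) := by
              rw [div_pow, one_pow, pow_add]
              field_simp
      have h8 : (n : ℝ) ≤ 2 ^ k := by exact_mod_cast hn
      calc (2 : ℝ) ^ e * (n * (2 ^ D0 * (1 - 1 / (Q : ℝ) / 2) ^ K)) ≤ 2 ^ e * (2 ^ k * (1 / 2 ^ (6 * s))) := by
            gcongr
        _ = 2 ^ (e + k) / 2 ^ (6 * s) := by
            rw [pow_add]
            ring
        _ ≤ 1 / 2 ^ (k + 3) := by
            rw [div_le_div_iff₀ (by positivity) (by positivity), one_mul, ← pow_add]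
            exact pow_le_pow_right₀ (by norm_num) (by omega)
    have hb3 : (2 : ℝ) ^ e * (N * (d * 2 ^ k * (12 * (r * s) * (1 / (24 * (r * s) : ℝ))) ^ (s + 1))) ≤
        1 / 2 ^ (k + 3) := by
      have h1 : 12 * ((r : ℝ) * s) * (1 / (24 * (r * s) : ℝ)) = 1 / 2 := by
        have h0 : (0 : ℝ) < r * s := by positivity
        field_simp
        norm_num
      rw [h1]
      have h2 : (N : ℝ) ≤ 2 ^ k := by exact_mod_cast hN
      have h3 : (d : ℝ) ≤ 2 ^ d := by exact_mod_cast (Nat.lt_two_pow_self (n := d)).le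
      calc (2 : ℝ) ^ e * (N * (d * 2 ^ k * (1 / 2) ^ (s + 1))) ≤
          2 ^ e * (2 ^ k * (2 ^ d * 2 ^ k * (1 / 2) ^ (s + 1))) := by gcongr
        _ = 2 ^ (e + k + d + k) / 2 ^ (s + 1) := by
            rw [div_pow, one_pow, pow_add, pow_add, pow_add]
            ring
        _ ≤ 1 / 2 ^ (k + 3) := by
            rw [div_le_div_iff₀ (by positivity) (by positivity), one_mul, ← pow_add]
            exact pow_le_pow_right₀ (by norm_num) (by omega)
    have h4 : (1 : ℝ) / 2 ^ (k + 3) = 1 / 2 ^ k / 8 := by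
      rw [pow_add]
      field_simp
      norm_num
    have h5 : (0 : ℝ) ≤ 1 / 2 ^ k := by positivity
    rw [h4] at hb1 hb2 hb3
    rw [mul_add, mul_add]
    linarith
  · -- the number of probes
    have h1 : ((D0 * (n - n / 2) : ℕ) : ℝ) ≤ (((τ + 1) * (w * s) : ℕ) : ℝ) := by exact_mod_cast hτ2.le
    have h2 : (((n - n / 2 : ℕ)) : ℝ) * 2 ≥ n := by
      have : n ≤ (n - n / 2) * 2 := by omega
      exact_mod_cast this
    have h3 : (K : ℝ) ≤ 12 * Q * D0 := by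
      have h4 : (K : ℝ) ≤ ((D0 + 1) * (4 * Q) : ℕ) := by exact_mod_cast hD2.le
      push_cast at h4
      have h5 : (1 : ℝ) ≤ D0 := by exact_mod_cast (by omega : 1 ≤ D0)
      nlinarith
    have hQp : (24 * (r * s) : ℝ) ^ (d + 1) = 24 * (r * s) * Q := by
      rw [hQ]
      push_cast
      rw [pow_succ]
      ring
    push_cast at h1
    rw [hQp]
    have hn0 : (0 : ℝ) ≤ n := Nat.cast_nonneg n
    have hD0r : (0 : ℝ) ≤ D0 := Nat.cast_nonneg D0
    calc (n * K : ℝ) ≤ n * (12 * Q * D0) := mul_le_mul_of_nonneg_left h3 hn0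
      _ = 12 * Q * (D0 * n) := by ring
      _ ≤ 12 * Q * (D0 * (((n - n / 2 : ℕ) : ℝ) * 2)) := by
          have : (0 : ℝ) ≤ 12 * Q := by linarith
          exact mul_le_mul_of_nonneg_left (mul_le_mul_of_nonneg_left h2 hD0r) this
      _ = 24 * Q * (D0 * ((n - n / 2 : ℕ) : ℝ)) := by ring
      _ ≤ 24 * Q * ((τ + 1) * (w * s)) := mul_le_mul_of_nonneg_left h1 (by linarith)
      _ = 24 * (1 * s) * Q * w * (τ + 1) := by ring
      _ ≤ 24 * (r * s) * Q * w * (τ + 1) := by gcongr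

end Pool.Agent.Helper46K9.MA
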