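import Pool.Agent.Helper89K9.MA.Stm4
import Pool.Agent.Helper46K9.MA.NumB

/-! Leaf [NM4] (helper46). -/

set_option autoImplicit false

namespace Pool.Agent.Helper46K9.MA

open Pool.Agent.Helper89K9.MA

/-- **NM4** -/
theorem nm4 : S_NM4 := by
  intro n K w N d k e r s hs hr hn hN hw hK hKn
  exact num4A n K w N d k e r s hs hr hn hN hw hK hKn

end Pool.Agent.Helper46K9.MA
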