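import Pool.Agent.Helper89K9.MA.Stm2
import Pool.Agent.Helper46K9.MA.NumA

/-! Leaves [NUM3], [FIN3] (helper46). -/

set_option autoImplicit false
set_option maxHeartbeats 1000000

namespace Pool.Agent.Helper46K9.MA

open Finset
open Pool.Agent.Helper89K9.MA
open H568R2 (Ex wq)
open Pool.Agent.TH163.AC2 (Alg lenE rightE mavg)
open Pool.Agent.TH163.AC3 (HasDT)
open Pool.Agent.H699R2.OMV (Prog Vec Mat IsProb before)

/-- **NUM3** -/
theorem num3 : S_NUM3 := by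
  intro n K w N d k e s hs hn hN hw hK hKn
  exact num3A n K w N d k e s hs hn hN hw hK hKn

/-- the last step -/
theorem last3 {L τ γ β x c T : ℝ} (hL : 0 ≤ L) (hτ : 0 ≤ τ) (hγ : 0 ≤ γ) (hβ : β ≤ γ / 2)
    (hc : 0 < c) (hx : x ≤ c * (τ + 1)) (hT : L * ((τ + 1) * (γ - β)) ≤ T) :
    γ * (L * x) ≤ 2 * c * T := by
  have h1 : L * ((τ + 1) * (γ / 2)) ≤ T := by
    refine le_trans ?_ hT
    apply mul_le_mul_of_nonneg_left _ hL
    apply mul_le_mul_of_nonneg_left _ (by linarith)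
    linarith
  have h2 : γ * (L * x) ≤ γ * (L * (c * (τ + 1))) := by
    apply mul_le_mul_of_nonneg_left _ hγ
    exact mul_le_mul_of_nonneg_left hx hL
  calc γ * (L * x) ≤ γ * (L * (c * (τ + 1))) := h2
    _ = 2 * c * (L * ((τ + 1) * (γ / 2))) := by ring
    _ ≤ 2 * c * T := mul_le_mul_of_nonneg_left h1 (by linarith)

/-- **FIN3** -/
theorem fin3 (one3 : S_ONE3) (avg : S_AVG) (num : S_NUM3) : S_FIN3 := by
  intro n K L vs π hL hKn hsep Ω A _ _ w alg μ hμ γ hR d k e hw hn hγ hAw hK hCM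
  obtain ⟨s, hs⟩ : ∃ s : ℕ, s = e + 3 * k + d + 2 := ⟨_, rfl⟩
  rw [← hs] at hK
  have hsr : (e + 3 * k + d + 2 : ℝ) = (s : ℝ) := by
    rw [hs]
    push_cast
    ring
  rw [hsr]
  obtain ⟨D0, m', τ, h1, h2, hb, hc⟩ := num n K w (Fintype.card A * w) d k e s hs hn hAw hw hK hKn
  have hs2 : (2 : ℝ) ≤ s := by exact_mod_cast (by omega : 2 ≤ s)
  have hw' : (0 : ℝ) < w := by exact_mod_cast hw
  have hq0 : (0 : ℝ) ≤ 1 / (24 * s : ℝ) := by positivity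
  have hq1 : (1 : ℝ) / (24 * s : ℝ) ≤ 1 / 3 := by
    apply one_div_le_one_div_of_le (by norm_num)
    linarith
  obtain ⟨β, hβ⟩ : ∃ β : ℝ, β = 2 ^ e * (1 / 2 ^ m' + n * (2 ^ D0 * (1 - (1 / (24 * s : ℝ)) ^ d / 2) ^ K) +
        (Fintype.card A * w : ℕ) * (d * 2 ^ k * (12 * s * (1 / (24 * s : ℝ))) ^ (s + 1))) := ⟨_, rfl⟩
  have hβ2 : β ≤ γ / 2 := by
    rw [hβ]
    refine hb.trans ?_
    linarith
  have hγ0 : 0 ≤ γ := le_trans (by positivity) hγ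
  have hav := avg n w Ω A alg μ hμ vs γ hR L hL τ β (by
    intro ω q hq
    rw [hβ]
    exact one3 n K w Ω A alg d k e s D0 m' τ (1 / (24 * s : ℝ)) hq0 hq1 (by omega) h1 h2 hCM ω (before vs q)
      (vs q) (π q) (hsep q hq))
  have hc0 : (0 : ℝ) < (24 * s : ℝ) ^ (d + 1) * w := by positivity
  have := last3 (Nat.cast_nonneg L) (Nat.cast_nonneg τ) hγ0 hβ2 hc0 hc hav
  refine this.trans (le_of_eq ?_)
  ring

end Pool.Agent.Helper46K9.MA
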